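import Mathlib
import Pool.Agent.H15.GD
import Pool.Agent.H15.Wien

/-!
Connected graphs of arbitrarily large diameter whose Wiener roots are all rational.
-/

namespace Pool.Agent.Results.MP_96b1db_co.Rational

open Finset Polynomial Pool.Agent.H15.Wien

/-- The Wiener polynomial: each unordered pair of distinct vertices is counted twice among
ordered pairs, hence the factor one half. -/
noncomputable def wiener {V : Type} [Fintype V] [DecidableEq V] (G : SimpleGraph V) : ℂ[X] :=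
  C (1 / 2) * ∑ e ∈ (univ : Finset V).offDiag, X ^ G.dist e.1 e.2

variable {d : ℕ} (n : ℕ) (μ : Q d → ℕ)

abbrev V := Σ p : Q d, Fin (n + 1) ⊕ Fin (μ p + 1)

variable {n μ}

def τ (v : V n μ) : ℕ := if v.2.isLeft then 0 else 1

def D (u v : V n μ) : ℕ := if u = v then 0 else
  if hammingDist u.1 v.1 + τ u + τ v = 0 then 2 else hammingDist u.1 v.1 + τ u + τ v

lemma D_comm (u v : V n μ) : D u v = D v u := by
  simp only [D, eq_comm (a := u), hammingDist_comm u.1, add_right_comm]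

def G : SimpleGraph (V n μ) where
  Adj u v := D u v = 1
  symm := ⟨fun u v h => D_comm u v ▸ h⟩
  loopless := ⟨fun u => by simp [D]⟩

lemma τ_le (v : V n μ) : τ v ≤ 1 := by unfold τ; split_ifs <;> omega

lemma tab : (G (n := n) (μ := μ)).Connected ∧ ∀ a b : V n μ, G.dist a b = D a b := by
  haveI : Nonempty (V n μ) := ⟨⟨fun _ => false, .inl 0⟩⟩
  refine Pool.Agent.H15.GD.table D (by simp [D]) (fun a u v h => ?_) fun a v h => ?_
  · change D u v = 1 at h
    have := hammingDist_triangle a.1 u.1 v.1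
    by_cases e : a = u
    · rw [e, h]; omega
    · simp only [D, if_neg e] at h ⊢
      split_ifs at h ⊢ <;> omega
  by_cases h1 : D a v = 1
  · exact ⟨a, h1, by rw [h1]; simp [D]⟩
  have k : ∀ u, D u v = 1 → (a ≠ u → D a u + 1 = D a v) → ∃ u, G.Adj u v ∧ D a u + 1 = D a v :=
    fun u e f => ⟨u, e, f (by rintro rfl; exact h1 e)⟩
  have := τ_le a
  obtain ⟨q, x | x⟩ := v
  · by_cases e : hammingDist a.1 q = 0
    · refine k ⟨q, .inr 0⟩ (by simp [D, τ]) fun f => ?_
      simp only [D, if_neg f, if_neg h.symm, e] at h1 ⊢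
      simp only [τ, Sum.isLeft_inl, Sum.isLeft_inr] at *
      split_ifs at * <;> omega
    · obtain ⟨r, r1, r2⟩ := closer a.1 q e
      have : r ≠ q := by rintro rfl; simp at r1
      refine k ⟨r, .inl 0⟩ (by simp [D, τ, r1, this]) fun f => ?_
      simp only [D, if_neg f, if_neg h.symm] at h1 ⊢
      simp only [τ, Sum.isLeft_inl] at *
      split_ifs at * <;> omega
  · refine k ⟨q, .inl 0⟩ (by simp [D, τ]) fun f => ?_
    simp only [D, if_neg f, if_neg h.symm] at h1 ⊢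
    simp only [τ, Sum.isLeft_inl, Sum.isLeft_inr] at *
    split_ifs at * <;> omega

lemma sumV (F : Q d → ℕ → ℂ) :
    ∑ v : V n μ, F v.1 (τ v) = ∑ p, ((n + 1) * F p 0 + (μ p + 1) * F p 1) := by
  simp [Fintype.sum_sigma, Fintype.sum_sum_type, τ]

lemma total (z : ℂ) : ∑ e ∈ (univ : Finset (V n μ)).offDiag, z ^ D e.1 e.2 =
    ∑ p : Q d, ∑ q : Q d, z ^ hammingDist p q * (n + 1 + (μ p + 1) * z) *
      (n + 1 + (μ q + 1) * z) + 2 ^ d * (n + 1) ^ 2 * (z ^ 2 - 1) -
      (2 ^ d * (n + 1) + ∑ p, ((μ p : ℂ) + 1)) * z ^ 2 := by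
  have e : ∀ u v : V n μ, z ^ D u v = z ^ (hammingDist u.1 v.1 + τ u + τ v) +
      (if hammingDist u.1 v.1 + τ u + τ v = 0 then z ^ 2 - 1 else 0) +
      (if u = v then 1 - z ^ 2 else 0) := fun u v => by
    unfold D
    split_ifs with h1 h2 h3
    · rw [h2]; ring
    · subst h1
      have := τ_le u
      rw [show hammingDist u.1 u.1 + τ u + τ u = 2 by simp at h2 ⊢; omega]; ring
    · rw [h3]; ring
    · ring
  have N : ∑ _v : V n μ, (1 : ℂ) = 2 ^ d * (n + 1) + ∑ p, ((μ p : ℂ) + 1) := by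
    rw [sumV (n := n) (μ := μ) fun _ _ => 1]; simp [sum_add_distrib, mul_add]
  have e1 : ∑ u : V n μ, ∑ v : V n μ, z ^ D u v =
      ∑ e ∈ (univ : Finset (V n μ)).offDiag, z ^ D e.1 e.2 + ∑ _v : V n μ, (1 : ℂ) := by
    rw [← sum_product', ← diag_union_offDiag, sum_union (disjoint_diag_offDiag _), sum_diag,
      add_comm]
    simp [D]
  have e2 : ∑ u : V n μ, ∑ v : V n μ, z ^ (hammingDist u.1 v.1 + τ u + τ v) =
      ∑ p : Q d, ∑ q : Q d, z ^ hammingDist p q * (n + 1 + (μ p + 1) * z) *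
      (n + 1 + (μ q + 1) * z) := by
    rw [sumV fun p t => ∑ v : V n μ, z ^ (hammingDist p v.1 + t + τ v)]
    refine sum_congr rfl fun p _ => ?_
    rw [sumV fun q t => z ^ (hammingDist p q + 0 + t), sumV fun q t => z ^ (hammingDist p q + 1 + t),
      mul_sum, mul_sum, ← sum_add_distrib]
    exact sum_congr rfl fun q _ => by ring
  have e3 : ∑ u : V n μ, ∑ v : V n μ,
      (if hammingDist u.1 v.1 + τ u + τ v = 0 then z ^ 2 - 1 else 0) =
      2 ^ d * (n + 1) ^ 2 * (z ^ 2 - 1) := by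
    rw [sumV fun p t => ∑ v : V n μ, if hammingDist p v.1 + t + τ v = 0 then z ^ 2 - 1 else 0]
    have : ∀ p, ∑ v : V n μ, (if hammingDist p v.1 + 0 + τ v = 0 then z ^ 2 - 1 else 0) =
        (n + 1) * (z ^ 2 - 1) := fun p => by
      rw [sumV fun q t => if hammingDist p q + 0 + t = 0 then z ^ 2 - 1 else 0]
      simp
    simp only [this]
    simp
    ring
  have e4 : ∑ u : V n μ, ∑ v : V n μ, z ^ D u v = ∑ u : V n μ, ∑ v : V n μ,
      z ^ (hammingDist u.1 v.1 + τ u + τ v) + ∑ u : V n μ, ∑ v : V n μ,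
      (if hammingDist u.1 v.1 + τ u + τ v = 0 then z ^ 2 - 1 else 0) +
      (∑ _v : V n μ, (1 : ℂ)) * (1 - z ^ 2) := by
    simp only [e, sum_add_distrib, sum_ite_eq, mem_univ, if_true, sum_mul, one_mul]
  rw [e4, e2, e3, N] at e1
  linear_combination -e1

theorem result (D₀ : ℕ) : ∃ (V : Type) (_ : Fintype V) (_ : DecidableEq V) (Γ : SimpleGraph V),
    Γ.Connected ∧ (∃ u v, D₀ ≤ Γ.dist u v) ∧ wiener Γ ≠ 0 ∧
      ∀ z : ℂ, (wiener Γ).IsRoot z → ∃ q : ℚ, z = q := by
  obtain ⟨u, k0, k1, k2, u0, hu⟩ := lemA (D₀ + 3)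
  obtain ⟨s, c, h1, h2, h3⟩ := coef (D₀ + 3 + 1) (by omega) u u0
  have hd : D₀ ≤ D₀ + 3 + 1 := by omega
  have hd' : D₀ + 3 + 3 = D₀ + 3 + 1 + 2 := rfl
  rw [hd'] at hu
  generalize D₀ + 3 + 1 = d at *
  obtain ⟨n, hn⟩ : ∃ n : ℕ, 2 ^ d = n + 1 := ⟨2 ^ d - 1, by have := Nat.two_pow_pos d; omega⟩
  have hn' : (n : ℂ) + 1 = 2 ^ d := by exact_mod_cast hn.symm
  have pos : ∀ p : Q d, ∃ m : ℕ, (m : ℤ) + 1 = ∑ S, c S * chi S p := fun p => by
    have a : -∑ S ∈ univ.erase ∅, (c S : ℤ) ≤ ∑ S ∈ univ.erase ∅, c S * chi S p := by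
      rw [← sum_neg_distrib]
      exact sum_le_sum fun S _ => by rcases chi_sq S p with e | e <;> simp [e]
    have b : ∑ S ∈ univ.erase ∅, (c S : ℤ) < c ∅ := by exact_mod_cast h1
    have := add_sum_erase univ (fun S => c S * chi S p) (mem_univ ∅)
    simp only [chi, notMem_empty, false_and, if_false, prod_const_one, mul_one] at this a ⊢
    exact ⟨(∑ S, c S * chi S p - 1).toNat, by unfold chi; omega⟩
  choose μ hμ using pos
  have hμ' : ∀ p, (μ p : ℂ) + 1 = ∑ S, c S * (chi S p : ℂ) := fun p => by exact_mod_cast hμ p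
  obtain ⟨con, hD⟩ := tab (n := n) (μ := μ)
  have m0 : (c ∅ : ℂ) = 2 ^ d * (s ^ 2 - 1) := by exact_mod_cast h2
  have key : ∀ z : ℂ, (wiener (G (n := n) (μ := μ))).eval z = 1 / 2 * (1 + z) ^ d *
      (2 ^ d * (2 ^ d + c ∅ * z) ^ 2 - (2 ^ d) ^ 2 / 4 * (k0 * (1 - z) ^ 2 + k1 * (1 - z) * (1 + z) +
        k2 * (1 + z) ^ 2) - 2 ^ d * (s ^ 2 - 2 ^ d) * z ^ 2) := fun z => by
    have a1 : ∀ p : Q d, (2 : ℂ) ^ d + (∑ S, c S * (chi S p : ℂ)) * z =
        ∑ S, (z * c S + if S = ∅ then 2 ^ d else 0) * (chi S p : ℂ) := fun p => by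
      simp only [add_mul, sum_add_distrib, ite_mul, zero_mul, sum_ite_eq', mem_univ, if_true,
        sum_mul]
      rw [add_comm]
      congr 1
      · exact sum_congr rfl fun _ _ => by ring
      · simp [chi]
    have a2 : ∑ p : Q d, ∑ S, c S * (chi S p : ℂ) = c ∅ * 2 ^ d := by
      rw [sum_comm]
      simp only [← mul_sum, ← Int.cast_sum, chi_sum]
      simp
    have a3 : ∑ S : Finset (Fin d), (z * c S + if S = ∅ then 2 ^ d else 0) ^ 2 *
        ((1 + z) ^ (d - S.card) * (1 - z) ^ S.card) = (z * c ∅ + 2 ^ d) ^ 2 * (1 + z) ^ d +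
        z ^ 2 * ∑ j ∈ range d, (2 ^ d * u (d - (j + 1)) + (s ^ 2 - 2 ^ d) * d.choose (j + 1)) *
          ((1 + z) ^ (d - (j + 1)) * (1 - z) ^ (j + 1)) := by
      rw [← powerset_univ, sum_powerset, card_univ, Fintype.card_fin, sum_range_succ', add_comm,
        mul_sum]
      congr 1
      · simp
      · refine sum_congr rfl fun j hj => ?_
        have := congrArg (Int.cast : ℤ → ℂ) (h3 (j + 1) (by omega) (mem_range.1 hj))
        push_cast at this
        rw [← this, sum_mul, mul_sum]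
        refine sum_congr rfl fun S hS => ?_
        have := mem_powersetCard_univ.1 hS
        rw [if_neg (by rintro rfl; simp at this), this]; ring
    have a4 : ∑ j ∈ range d, (u (d - (j + 1)) : ℂ) *
        ((1 + z) ^ (d - (j + 1)) * (1 - z) ^ (j + 1)) =
        ∑ i ∈ range d, (u i : ℂ) * (1 + z) ^ i * (1 - z) ^ (d - i) := by
      rw [← sum_range_reflect]
      refine sum_congr rfl fun i hi => ?_
      have := mem_range.1 hi
      rw [show d - (d - 1 - i + 1) = i by omega, show d - 1 - i + 1 = d - i by omega, mul_assoc]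
    have a5 : ∑ j ∈ range d, (d.choose (j + 1) : ℂ) *
        ((1 + z) ^ (d - (j + 1)) * (1 - z) ^ (j + 1)) = 2 ^ d - (1 + z) ^ d := by
      have := add_pow (1 - z) (1 + z) d
      rw [sum_range_succ', show 1 - z + (1 + z) = 2 by ring] at this
      rw [this]
      simp only [pow_zero, Nat.sub_zero, Nat.choose_zero_right, Nat.cast_one, one_mul, mul_one,
        add_sub_cancel_right]
      exact sum_congr rfl fun _ _ => by ring
    have a6 := hu (1 + z) (1 - z)
    rw [show 1 + z + (1 - z) = 2 by ring, ← a4] at a6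
    simp only [wiener, eval_mul, eval_C, eval_finsetSum, eval_pow, eval_X, hD, total, hn', hμ',
      a1, a2, four', a3]
    simp only [add_mul, sum_add_distrib, mul_assoc, ← mul_sum, a5]
    simp only [← mul_assoc] at a6 ⊢
    rw [m0]
    linear_combination (2 ^ d) ^ 2 / 8 * a6
  have k : (k0 : ℂ) + k1 + k2 = 4 * 2 ^ d := by
    have := hu 1 1
    norm_num at this
    linear_combination this
  obtain ⟨t1, t2, ht⟩ : ∃ t1 t2 : ℚ, ∀ z : ℂ, (wiener (G (n := n) (μ := μ))).eval z =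
      (1 + z) ^ d * z * (t1 + t2 * z) :=
    ⟨(2 ^ d) ^ 2 * c ∅ - (2 ^ d) ^ 2 / 4 * (k2 - k0), (2 ^ d * c ∅ ^ 2 - (2 ^ d) ^ 2 / 4 *
      (k0 - k1 + k2) - 2 ^ d * (s ^ 2 - 2 ^ d)) / 2, fun z => by
      rw [key]; push_cast; linear_combination -(1 + z) ^ d * (2 ^ d) ^ 2 / 8 * k⟩
  have w1 : (wiener (G (n := n) (μ := μ))).eval 1 ≠ 0 := by
    simp only [wiener, eval_mul, eval_C, eval_finsetSum, eval_pow, eval_X, one_pow, sum_const,
      nsmul_eq_mul, mul_one]
    exact mul_ne_zero (by norm_num) (Nat.cast_ne_zero.2 (card_ne_zero_of_mem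
      (a := (⟨fun _ => false, .inl 0⟩, ⟨fun _ => false, .inr 0⟩)) (by simp)))
  refine ⟨_, inferInstance, inferInstance, G, con,
    ⟨⟨fun _ => false, .inl 0⟩, ⟨fun _ => true, .inr 0⟩, ?_⟩, fun h => w1 (by simp [h]),
    fun z hz => ?_⟩
  · rw [hD]; simp [D, τ, hammingDist]
    split_ifs with h
    · simpa [τ] using congrArg τ h
    · omega
  · rw [IsRoot, ht, mul_eq_zero, mul_eq_zero] at hz
    rcases hz with (h | h) | h
    · exact ⟨-1, by push_cast; linear_combination eq_zero_of_pow_eq_zero h⟩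
    · exact ⟨0, by simpa using h⟩
    · have : (t2 : ℂ) ≠ 0 := fun e => w1 (by rw [ht]; simp [e] at h ⊢; simp [h])
      exact ⟨-t1 / t2, by push_cast; field_simp; linear_combination h⟩

end Pool.Agent.Results.MP_96b1db_co.Rational
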